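import Pool.Agent.helper10.NA.Defs

set_option autoImplicit false

/-!
# Module B: torsion

If every letter is forced infinitely often, then the quotient of `F4` by `NL (Lam τ)` is a torsion
group; derived subgroups of finitely generated torsion groups have finite index.
-/

namespace Pool.Agent.helper90.NA

open Pool.Agent.helper7.UG Pool.Agent.helper10.NA

/-! ### Derived subgroups -/

theorem derivedSeries_finiteIndex (G : Type) [Group G] [Group.FG G]
    (h : ∀ g : G, ∃ k : ℕ, 0 < k ∧ g ^ k = 1) (n : ℕ) : (derivedSeries G n).FiniteIndex := by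
  induction n with
  | zero =>
    rw [derivedSeries_zero]
    infer_instance
  | succ n ih =>
    set H : Subgroup G := derivedSeries G n with hH
    have : H.FiniteIndex := ih
    have : Group.FG H := Subgroup.fg_of_index_ne_zero H
    have : Group.FG (Abelianization H) := QuotientGroup.fg _
    have htors : IsMulTorsion (Abelianization H) := by
      intro x
      obtain ⟨y, hy⟩ := QuotientGroup.mk'_surjective (commutator H) x
      obtain ⟨k, hk, hk'⟩ := h y
      refine isOfFinOrder_iff_pow_eq_one.2 ⟨k, hk, ?_⟩
      have h1 : y ^ k = 1 := Subtype.ext (by simpa using hk')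
      have h2 : (QuotientGroup.mk' (commutator H) y) ^ k = 1 := by rw [← map_pow, h1, map_one]
      rw [hy] at h2
      exact h2
    have : Finite (Abelianization H) := CommGroup.finite_of_fg_isMulTorsion _ htors
    have hfin : (commutator H).FiniteIndex := by
      have : Finite (H ⧸ commutator H) := this
      exact Subgroup.finiteIndex_of_finite_quotient
    rw [derivedSeries_succ, ← hH, ← Subgroup.map_subtype_commutator]
    constructor
    rw [Subgroup.index_map_subtype]
    exact mul_ne_zero hfin.index_ne_zero ih.index_ne_zero

/-! ### Being torsion modulo the kernel -/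

/-- Some power lies in the kernel. -/
def T (τ : ℕ → Finset (Fin 3)) (w : F4) : Prop := ∃ k, 0 < k ∧ w ^ k ∈ NL (Lam τ)

theorem T_iff (τ : ℕ → Finset (Fin 3)) (w : F4) :
    T τ w ↔ IsOfFinOrder (QuotientGroup.mk' (NL (Lam τ)) w) := by
  rw [isOfFinOrder_iff_pow_eq_one]
  unfold T
  refine exists_congr fun k => and_congr_right fun _ => ?_
  rw [← map_pow]
  exact (QuotientGroup.eq_one_iff (w ^ k)).symm

theorem T_conj {τ : ℕ → Finset (Fin 3)} {w w' : F4} (h : IsConj w w') (hw : T τ w) : T τ w' := by
  rw [T_iff] at hw ⊢
  exact (MonoidHom.map_isConj (QuotientGroup.mk' (NL (Lam τ))) h).isOfFinOrder hw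

theorem NL_univ_le (τ : ℕ → Finset (Fin 3)) : NL Set.univ ≤ NL (Lam τ) := by
  intro g hg
  rw [mem_NL] at hg ⊢
  exact fun ω _ => hg ω trivial

theorem T_congr {τ : ℕ → Finset (Fin 3)} {w w' : F4}
    (h : (w : F4 ⧸ NL Set.univ) = w') (hw : T τ w) : T τ w' := by
  rw [T_iff] at hw ⊢
  have h1 : w⁻¹ * w' ∈ NL (Lam τ) := NL_univ_le τ ((QuotientGroup.eq).1 h)
  have h2 : QuotientGroup.mk' (NL (Lam τ)) w = QuotientGroup.mk' (NL (Lam τ)) w' :=
    (QuotientGroup.eq).2 h1
  rwa [← h2]

theorem T_sq {τ : ℕ → Finset (Fin 3)} {w : F4} (h : T τ (w * w)) : T τ w := by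
  obtain ⟨k, hk, hk'⟩ := h
  refine ⟨2 * k, by omega, ?_⟩
  rwa [pow_mul, pow_two]

theorem NL_Lam_of (τ : ℕ → Finset (Fin 3)) (w : F4) (h1 : (Psi w).right = 1)
    (h2 : ∀ e, ∀ y ∈ τ 0, (Psi w).left e y ∈ NL (Lam (tl τ))) : w ∈ NL (Lam τ) := by
  rw [mem_NL]
  intro ω hω
  rw [homω_eq_one_iff]
  refine ⟨h1, fun e => ?_⟩
  have h3 := h2 e (ω 0) (hω 0)
  rw [mem_NL] at h3
  exact h3 (shift ω) fun n => hω (n + 1)

theorem Psi_pow_right (w : F4) (h : (Psi w).right = 1) (k : ℕ) : (Psi (w ^ k)).right = 1 := by
  rw [map_pow]
  induction k with
  | zero => rw [pow_zero]; rfl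
  | succ k ih => rw [pow_succ, mul_right_apply, ih, h, one_mul]

theorem Psi_pow_left (w : F4) (h : (Psi w).right = 1) (k : ℕ) (e : Bool) (y : Fin 3) :
    (Psi (w ^ k)).left e y = ((Psi w).left e y) ^ k := by
  induction k with
  | zero => rw [pow_zero, pow_zero, map_one]; rfl
  | succ k ih =>
    rw [pow_succ', pow_succ', map_mul, mul_left_apply, h, inv_one, Equiv.Perm.coe_one, id_eq, ih]

/-- The recursion for even words. -/
theorem T_even {τ : ℕ → Finset (Fin 3)} {w : F4} (h1 : (Psi w).right = 1)
    (h2 : ∀ e, ∀ y ∈ τ 0, T (tl τ) ((Psi w).left e y)) : T τ w := by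
  classical
  choose! k hk hk' using h2
  refine ⟨∏ e : Bool, ∏ y ∈ τ 0, k e y, ?_, ?_⟩
  · exact Finset.prod_pos fun e _ => Finset.prod_pos fun y hy => hk e y hy
  · refine NL_Lam_of τ _ (Psi_pow_right w h1 _) fun e y hy => ?_
    rw [Psi_pow_left w h1]
    have h3 : k e y ∣ ∏ e : Bool, ∏ y ∈ τ 0, k e y :=
      (Finset.dvd_prod_of_mem (k e) hy).trans
        (Finset.dvd_prod_of_mem (fun e => ∏ y ∈ τ 0, k e y) (Finset.mem_univ e))
    obtain ⟨m, hm⟩ := h3
    rw [hm, pow_mul]
    exact Subgroup.pow_mem _ (hk' e y hy) m

/-- The recursion for odd words. -/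
theorem T_odd {τ : ℕ → Finset (Fin 3)} {w : F4} (h1 : (Psi w).right = Equiv.boolNot)
    (h2 : ∀ y ∈ τ 0, T (tl τ) ((Psi (w * w)).left true y)) : T τ w := by
  refine T_sq (T_even ?_ ?_)
  · rw [map_mul, mul_right_apply, h1]
    ext1 e
    cases e <;> rfl
  · have h3 : ∀ e, (Equiv.boolNot)⁻¹ e = !e := fun e => by cases e <;> rfl
    intro e y hy
    have h4 := h2 y hy
    cases e with
    | true => exact h4
    | false =>
      refine T_conj ?_ h4
      rw [map_mul, mul_left_apply, mul_left_apply, h1, h3, h3, isConj_iff]
      refine ⟨(Psi w).left false y, ?_⟩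
      simp only [Bool.not_true, Bool.not_false]
      group

/-! ### Words -/

/-- The element of the four-group with a given number (`0` is the identity). -/
def vv (i : Fin 4) : F4 := if i = 0 then 1 else FreeGroup.of i

/-- The product of the `a * v`, `v` in the list. -/
def W (l : List (Fin 4)) : F4 := (l.map fun v => FreeGroup.of 0 * vv v).prod

theorem W_nil : W [] = 1 := rfl

theorem W_cons (v : Fin 4) (l : List (Fin 4)) : W (v :: l) = FreeGroup.of 0 * vv v * W l := by
  simp [W]

theorem W_append (l l' : List (Fin 4)) : W (l ++ l') = W l * W l' := by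
  simp [W]

/-- Addition in the four-group. -/
def xr (i j : Fin 4) : Fin 4 :=
  if i = 0 then j else if j = 0 then i else if i = j then 0
  else if i ≠ 1 ∧ j ≠ 1 then 1 else if i ≠ 2 ∧ j ≠ 2 then 2 else 3

theorem xr_act : ∀ i j : Fin 4, ∀ y : Fin 3, act (xr i j) y = (act i y != act j y) := by
  decide

theorem mk_of_sq (i : Fin 4) :
    ((FreeGroup.of i * FreeGroup.of i : F4) : F4 ⧸ NL Set.univ) = 1 :=
  (QuotientGroup.eq_one_iff _).2 (of_sq_mem _ i)

theorem mk_vv_mul (i j : Fin 4) :
    ((vv i * vv j : F4) : F4 ⧸ NL Set.univ) = (vv (xr i j) : F4) := by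
  unfold vv
  by_cases hi : i = 0
  · subst hi
    simp [xr]
  by_cases hj : j = 0
  · subst hj
    simp [xr, hi]
  by_cases hij : i = j
  · subst hij
    simp only [xr, hi, if_false, if_true]
    exact mk_of_sq i
  have h0 : xr i j ≠ 0 := by
    revert i j
    decide
  simp only [hi, hj, h0, if_false]
  have h1 := of_mul_mem Set.univ i j (xr i j) hi hj h0 (xr_act i j)
  rw [← (QuotientGroup.eq_one_iff _), QuotientGroup.mk_mul, QuotientGroup.mk_inv,
    mul_inv_eq_one] at h1
  exact h1

/-- The element is a product of at most `m` letters `a` and of elements of the four-group. -/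
def Len (m : ℕ) (g : F4) : Prop :=
  ∃ (v : Fin 4) (l : List (Fin 4)), l.length ≤ m ∧
    (g : F4 ⧸ NL Set.univ) = (vv v * W l : F4)

theorem Len.mono {m m' : ℕ} {g : F4} (h : Len m g) (hm : m ≤ m') : Len m' g := by
  obtain ⟨v, l, h1, h2⟩ := h
  exact ⟨v, l, h1.trans hm, h2⟩

theorem Len_vv (v : Fin 4) : Len 0 (vv v) := ⟨v, [], by simp, by simp [W_nil]⟩

theorem Len_one : Len 0 1 := by
  have h := Len_vv 0
  simpa [vv] using h

theorem Len_a : Len 1 (FreeGroup.of 0) := ⟨0, [0], by simp, by simp [W, vv]⟩

/-- Absorbing an element of the four-group on the right. -/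
theorem W_mul_vv (l : List (Fin 4)) (hl : l ≠ []) (v : Fin 4) :
    ∃ l' : List (Fin 4), l'.length = l.length ∧
      ((W l * vv v : F4) : F4 ⧸ NL Set.univ) = (W l' : F4) := by
  induction l with
  | nil => exact absurd rfl hl
  | cons u l ih =>
    by_cases hl' : l = []
    · subst hl'
      refine ⟨[xr u v], rfl, ?_⟩
      rw [W_cons, W_cons, W_nil, mul_one, mul_one, mul_assoc, QuotientGroup.mk_mul, mk_vv_mul,
        ← QuotientGroup.mk_mul]
    · obtain ⟨l', h1, h2⟩ := ih hl'
      refine ⟨u :: l', by simp [h1], ?_⟩
      rw [W_cons, W_cons, mul_assoc, QuotientGroup.mk_mul, h2, ← QuotientGroup.mk_mul]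

theorem Len.mul {m m' : ℕ} {g h : F4} (hg : Len m g) (hh : Len m' h) : Len (m + m') (g * h) := by
  obtain ⟨v, l, h1, h2⟩ := hg
  obtain ⟨v', l', h3, h4⟩ := hh
  by_cases hl : l = []
  · subst hl
    refine ⟨xr v v', l', by omega, ?_⟩
    rw [QuotientGroup.mk_mul, h2, h4, W_nil, mul_one, ← QuotientGroup.mk_mul, ← mul_assoc,
      QuotientGroup.mk_mul, mk_vv_mul, ← QuotientGroup.mk_mul]
  · obtain ⟨l'', h5, h6⟩ := W_mul_vv l hl v'
    refine ⟨v, l'' ++ l', by simp only [List.length_append]; omega, ?_⟩
    rw [QuotientGroup.mk_mul, h2, h4, W_append]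
    simp only [QuotientGroup.mk_mul] at h6 ⊢
    rw [← h6]
    simp only [mul_assoc]

theorem Len_of (i : Fin 4) : ∃ m, Len m (FreeGroup.of i) := by
  by_cases hi : i = 0
  · subst hi
    exact ⟨1, Len_a⟩
  · refine ⟨0, ?_⟩
    have h := Len_vv i
    simpa [vv, hi] using h

theorem exists_Len (w : F4) : ∃ m, Len m w := by
  induction w using FreeGroup.induction_on with
  | C1 => exact ⟨0, Len_one⟩
  | of i => exact Len_of i
  | inv_of i _ =>
    obtain ⟨m, v, l, h1, h2⟩ := Len_of i
    refine ⟨m, v, l, h1, ?_⟩
    rw [← h2]
    have h3 := mk_of_sq i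
    rw [QuotientGroup.mk_mul] at h3
    rw [QuotientGroup.mk_inv]
    exact (eq_inv_of_mul_eq_one_left h3).symm
  | mul x y hx hy =>
    obtain ⟨m, hm⟩ := hx
    obtain ⟨m', hm'⟩ := hy
    exact ⟨m + m', hm.mul hm'⟩

/-! ### Sections of words -/

theorem Psi_vv_right (v : Fin 4) : (Psi (vv v)).right = 1 := by
  unfold vv
  split_ifs with h
  · rw [map_one]; rfl
  · rw [Psi_of, wgen, if_neg h]

theorem Psi_vv_left (v : Fin 4) (e : Bool) (y : Fin 3) :
    (Psi (vv v)).left e y = if e then vv v else if act v y then FreeGroup.of 0 else 1 := by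
  unfold vv
  by_cases h : v = 0
  · subst h
    have h1 : act 0 y = false := by simp [act]
    rw [h1]
    cases e <;> simp
  · simp only [h, if_false]
    rw [Psi_of, wgen, if_neg h]

theorem Psi_a_right : (Psi (FreeGroup.of 0)).right = Equiv.boolNot := by
  rw [Psi_of, wgen, if_pos rfl]

theorem Psi_a_left (e : Bool) (y : Fin 3) : (Psi (FreeGroup.of 0)).left e y = 1 := by
  rw [Psi_of, wgen, if_pos rfl]
  rfl

theorem Psi_av_left (v : Fin 4) (g : F4) (e : Bool) (y : Fin 3) :
    (Psi (FreeGroup.of 0 * vv v * g)).left e y =
      (if e then (if act v y then FreeGroup.of 0 else 1) else vv v) * (Psi g).left (!e) y := by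
  have h3 : ∀ e, (Equiv.boolNot)⁻¹ e = !e := fun e => by cases e <;> rfl
  rw [mul_assoc, map_mul, map_mul, mul_left_apply, mul_left_apply, Psi_a_left, Psi_a_right, h3,
    Psi_vv_right, Psi_vv_left, one_mul]
  cases e <;> rfl

theorem Psi_W_right (l : List (Fin 4)) :
    (Psi (W l)).right = if Even l.length then 1 else Equiv.boolNot := by
  induction l with
  | nil => simp [W_nil]
  | cons v l ih =>
    rw [W_cons, mul_assoc, map_mul, map_mul, mul_right_apply, mul_right_apply, Psi_a_right,
      Psi_vv_right, ih, List.length_cons, one_mul]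
    by_cases h : Even l.length
    · have h1 : ¬ Even (l.length + 1) := by
        rw [Nat.even_add_one]
        exact fun h2 => h2 h
      rw [if_pos h, if_neg h1]
      rfl
    · have h1 : Even (l.length + 1) := by
        rw [Nat.even_add_one]
        exact h
      rw [if_neg h, if_pos h1]
      ext1 e
      cases e <;> rfl

/-- Members of odd rank. -/
def odds : List (Fin 4) → List (Fin 4)
  | [] => []
  | [x] => [x]
  | x :: _ :: l => x :: odds l

/-- Members of even rank. -/
def evens : List (Fin 4) → List (Fin 4)
  | [] => []
  | [_] => []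
  | _ :: y :: l => y :: evens l

theorem odds_cons (x : Fin 4) (l : List (Fin 4)) : odds (x :: l) = x :: evens l := by
  induction l using List.twoStepInduction generalizing x with
  | nil => rfl
  | singleton y => rfl
  | cons_cons y z l ih _ =>
    rw [odds, evens, ih]

theorem evens_cons (x : Fin 4) (l : List (Fin 4)) : evens (x :: l) = odds l := by
  cases l with
  | nil => rfl
  | cons y l => rw [evens, odds_cons]

theorem odds_append (l l' : List (Fin 4)) :
    (Even l.length → odds (l ++ l') = odds l ++ odds l') ∧
    (¬ Even l.length → odds (l ++ l') = odds l ++ evens l') ∧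
    (Even l.length → evens (l ++ l') = evens l ++ evens l') ∧
    (¬ Even l.length → evens (l ++ l') = evens l ++ odds l') := by
  induction l with
  | nil => simp [odds, evens]
  | cons x l ih =>
    obtain ⟨h1, h2, h3, h4⟩ := ih
    simp only [List.length_cons, Nat.even_add_one, List.cons_append, odds_cons, evens_cons,
      not_not]
    refine ⟨fun h => ?_, fun h => ?_, fun h => ?_, fun h => ?_⟩
    · rw [h4 h]
    · rw [h3 h]
    · rw [h2 h]
    · rw [h1 h]

theorem mem_odds_or (v : Fin 4) (l : List (Fin 4)) (h : v ∈ l) : v ∈ odds l ∨ v ∈ evens l := by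
  induction l with
  | nil => simp at h
  | cons x l ih =>
    rw [odds_cons, evens_cons]
    rcases List.mem_cons.1 h with h | h
    · left; simp [h]
    · rcases ih h with h | h
      · right; exact h
      · left; simp [h]

theorem length_odds_evens (l : List (Fin 4)) : (odds l).length + (evens l).length = l.length := by
  induction l with
  | nil => rfl
  | cons x l ih =>
    rw [odds_cons, evens_cons, List.length_cons, List.length_cons, ← ih]
    omega

theorem countP_odds_evens (p : Fin 4 → Bool) (l : List (Fin 4)) :
    (odds l).countP p + (evens l).countP p = l.countP p := by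
  induction l with
  | nil => rfl
  | cons x l ih =>
    rw [odds_cons, evens_cons, List.countP_cons, List.countP_cons, ← ih]
    omega

/-- The sections of words have few letters `a`. -/
theorem Len_left (l : List (Fin 4)) (y : Fin 3) :
    Len ((odds l).countP fun v => act v y) ((Psi (W l)).left true y) ∧
    Len ((evens l).countP fun v => act v y) ((Psi (W l)).left false y) := by
  induction l with
  | nil =>
    rw [W_nil, map_one]
    exact ⟨Len_one, Len_one⟩
  | cons x l ih =>
    rw [W_cons, Psi_av_left, Psi_av_left, odds_cons, evens_cons]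
    simp only [Bool.not_true, Bool.not_false, if_true, Bool.false_eq_true, if_false]
    constructor
    · rw [List.countP_cons, Nat.add_comm]
      refine Len.mul ?_ ih.2
      by_cases h : act x y = true
      · rw [if_pos h, if_pos h]
        exact Len_a
      · rw [if_neg h, if_neg h]
        exact Len_one
    · have h := Len.mul (Len_vv x) ih.1
      rwa [zero_add] at h

/-- Sections when everything is active. -/
theorem left_active (l : List (Fin 4)) (y : Fin 3) (hl : Even l.length)
    (h : ∀ v ∈ odds l, act v y = true) : (Psi (W l)).left true y = W (evens l) := by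
  induction l using List.twoStepInduction with
  | nil =>
    rw [W_nil, map_one]
    rfl
  | singleton x => simp at hl
  | cons_cons x z l ih _ =>
    have hl' : Even l.length := by
      simp only [List.length_cons] at hl
      rw [Nat.even_add_one, Nat.even_add_one, not_not] at hl
      exact hl
    rw [W_cons, Psi_av_left, W_cons, Psi_av_left]
    simp only [Bool.not_true, Bool.not_false, if_true, Bool.false_eq_true, if_false]
    rw [odds] at h
    rw [if_pos (h x (by simp)), ih hl' (fun v hv => h v (by simp [hv])), evens, W_cons, mul_assoc]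

/-! ### Torsion -/

/-- Every letter is forced infinitely often. -/
def Forced (τ : ℕ → Finset (Fin 3)) : Prop :=
  (∀ n, (τ n).Nonempty) ∧ ∀ y : Fin 3, ∀ m, ∃ n, m ≤ n ∧ τ n = {y}

theorem Forced.tl {τ : ℕ → Finset (Fin 3)} (h : Forced τ) : Forced (tl τ) := by
  refine ⟨fun n => h.1 (n + 1), fun y m => ?_⟩
  obtain ⟨n, h1, h2⟩ := h.2 y (m + 1)
  refine ⟨n - 1, by omega, ?_⟩
  show τ (n - 1 + 1) = {y}
  rwa [Nat.sub_add_cancel (by omega)]

theorem T_vv (τ : ℕ → Finset (Fin 3)) (v : Fin 4) : T τ (vv v) := by
  refine ⟨2, by norm_num, NL_univ_le τ ?_⟩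
  rw [pow_two]
  unfold vv
  split_ifs with h
  · rw [mul_one]
    exact Subgroup.one_mem _
  · exact of_sq_mem _ v

theorem T_of_Len {τ : ℕ → Finset (Fin 3)} {m : ℕ}
    (h : ∀ l : List (Fin 4), l.length ≤ m → T τ (W l)) {g : F4} (hg : Len m g) : T τ g := by
  obtain ⟨v, l, h1, h2⟩ := hg
  refine T_congr h2.symm ?_
  by_cases hl : l = []
  · subst hl
    rw [W_nil, mul_one]
    exact T_vv τ v
  · obtain ⟨l', h3, h4⟩ := W_mul_vv l hl v
    have h5 : T τ (W l * vv v) := T_congr h4.symm (h l' (by omega))
    refine T_conj ?_ h5
    rw [isConj_iff]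
    exact ⟨vv v, by group⟩

theorem exists_inactive (v : Fin 4) : ∃ y : Fin 3, act v y = false := by
  revert v
  decide

theorem T_W (k : ℕ) : ∀ (τ : ℕ → Finset (Fin 3)), Forced τ → ∀ l : List (Fin 4),
    l.length = k → T τ (W l) := by
  induction k using Nat.strong_induction_on with
  | _ k ih =>
    -- everything shorter
    have hshort : ∀ (τ : ℕ → Finset (Fin 3)), Forced τ → ∀ m, m < k → ∀ g, Len m g → T τ g :=
      fun τ hτ m hm g hg => T_of_Len (fun l hl => ih l.length (by omega) τ hτ l rfl) hg
    intro τ hτ l hl
    rcases Nat.eq_zero_or_pos k with hk0 | hkpos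
    · have h0 : l = [] := List.length_eq_zero_iff.1 (hl.trans hk0)
      rw [h0, W_nil]
      exact ⟨1, one_pos, by rw [one_pow]; exact Subgroup.one_mem _⟩
    by_cases hev : Even k
    · -- even length
      have hlen := length_odds_evens l
      have hpar : (odds l).length = (evens l).length := by
        have : ∀ l : List (Fin 4), Even l.length → (odds l).length = (evens l).length := by
          intro l
          induction l using List.twoStepInduction with
          | nil => intro _; rfl
          | singleton x => intro h; simp at h
          | cons_cons x z l ih _ =>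
            intro h
            simp only [List.length_cons] at h
            rw [Nat.even_add_one, Nat.even_add_one, not_not] at h
            rw [odds, evens, List.length_cons, List.length_cons, ih h]
        exact this l (hl ▸ hev)
      refine T_even ?_ ?_
      · rw [Psi_W_right, hl, if_pos hev]
      · intro e y _
        cases e with
        | true =>
          exact hshort _ hτ.tl _
            (lt_of_le_of_lt List.countP_le_length (by omega)) _ (Len_left l y).1
        | false =>
          exact hshort _ hτ.tl _
            (lt_of_le_of_lt List.countP_le_length (by omega)) _ (Len_left l y).2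
    · -- odd length
      have key : ∀ (n : ℕ) (τ : ℕ → Finset (Fin 3)), Forced τ → ∀ (l : List (Fin 4)) (v : Fin 4)
          (y : Fin 3), l.length = k → v ∈ l → τ n = {y} → act v y = false → T τ (W l) := by
        intro n
        induction n with
        | zero =>
          intro τ hτ l v y hl hv hn hact
          refine T_odd (by rw [Psi_W_right, hl, if_neg hev]) fun y' hy' => ?_
          have hy2 : y' = y := by
            rw [hn] at hy'
            exact Finset.mem_singleton.1 hy'
          subst hy2
          rw [← W_append]
          refine hshort _ hτ.tl _ ?_ _ (Len_left (l ++ l) y').1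
          rw [(odds_append l l).2.1 (hl ▸ hev), List.countP_append, countP_odds_evens, ← hl]
          refine lt_of_le_of_ne List.countP_le_length fun h => ?_
          rw [List.countP_eq_length] at h
          have := h v hv
          rw [hact] at this
          exact absurd this (by decide)
        | succ n ihn =>
          intro τ hτ l v y hl hv hn hact
          refine T_odd (by rw [Psi_W_right, hl, if_neg hev]) fun y' hy' => ?_
          rw [← W_append]
          by_cases hall : ∀ u ∈ l, act u y' = true
          · have hodd : odds (l ++ l) = odds l ++ evens l := (odds_append l l).2.1 (hl ▸ hev)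
            have hevn : evens (l ++ l) = evens l ++ odds l := (odds_append l l).2.2.2 (hl ▸ hev)
            have hsub1 : ∀ u ∈ odds l, u ∈ l := by
              have : ∀ (p : Fin 4 → Bool) (l : List (Fin 4)), l.countP p = l.length →
                  ∀ u ∈ odds l, p u = true := by
                intro p l h u hu
                have h1 := countP_odds_evens p l
                have h2 := length_odds_evens l
                have h3 : (odds l).countP p ≤ (odds l).length := List.countP_le_length
                have h4 : (evens l).countP p ≤ (evens l).length := List.countP_le_length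
                have h5 : (odds l).countP p = (odds l).length := by omega
                exact List.countP_eq_length.1 h5 u hu
              intro u hu
              have h1 := this (fun x => decide (x ∈ l)) l
                (List.countP_eq_length.2 fun x hx => by simpa using hx) u hu
              simpa using h1
            have hsub2 : ∀ u ∈ evens l, u ∈ l := by
              have : ∀ (p : Fin 4 → Bool) (l : List (Fin 4)), l.countP p = l.length →
                  ∀ u ∈ evens l, p u = true := by
                intro p l h u hu
                have h1 := countP_odds_evens p l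
                have h2 := length_odds_evens l
                have h3 : (odds l).countP p ≤ (odds l).length := List.countP_le_length
                have h4 : (evens l).countP p ≤ (evens l).length := List.countP_le_length
                have h5 : (evens l).countP p = (evens l).length := by omega
                exact List.countP_eq_length.1 h5 u hu
              intro u hu
              have h1 := this (fun x => decide (x ∈ l)) l
                (List.countP_eq_length.2 fun x hx => by simpa using hx) u hu
              simpa using h1
            rw [left_active (l ++ l) y' (by rw [List.length_append]; exact ⟨l.length, rfl⟩)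
              (by
                intro u hu
                rw [hodd, List.mem_append] at hu
                rcases hu with hu | hu
                · exact hall u (hsub1 u hu)
                · exact hall u (hsub2 u hu))]
            refine ihn (tl τ) hτ.tl (evens (l ++ l)) v y ?_ ?_ hn hact
            · rw [hevn, List.length_append, ← hl, ← length_odds_evens l]
              omega
            · rw [hevn, List.mem_append]
              rcases mem_odds_or v l hv with h | h
              · right; exact h
              · left; exact h
          · refine hshort _ hτ.tl _ ?_ _ (Len_left (l ++ l) y').1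
            rw [(odds_append l l).2.1 (hl ▸ hev), List.countP_append, countP_odds_evens, ← hl]
            refine lt_of_le_of_ne List.countP_le_length fun h => hall ?_
            rw [List.countP_eq_length] at h
            exact h
      obtain ⟨v, hv⟩ : ∃ v, v ∈ l := by
        cases l with
        | nil => simp at hl; omega
        | cons v l => exact ⟨v, by simp⟩
      obtain ⟨y, hy⟩ := exists_inactive v
      obtain ⟨n, _, hn⟩ := hτ.2 y 0
      exact key n τ hτ l v y hl hv hn hy

/-- Every element is torsion modulo the kernel. -/
theorem exists_pow_mem (τ : ℕ → Finset (Fin 3)) (h : Forced τ) (w : F4) :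
    ∃ k, 0 < k ∧ w ^ k ∈ NL (Lam τ) := by
  obtain ⟨m, hm⟩ := exists_Len w
  exact T_of_Len (fun l _ => T_W l.length τ h l rfl) hm

end Pool.Agent.helper90.NA
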